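import Pool.Agent.MP_c1891a_nt.G43.SpecA

/-
The Tate algebra as the completion of the polynomial ring for the Gauss norm.
-/

namespace Pool.Agent.MP_c1891a_nt.G43

open MvPolynomial UniformSpace
open scoped NNReal

section

variable {K σ : Type} [NormedField K]

lemma Tate_gn_le_iff (p : MvPolynomial σ K) (r : ℝ≥0) : gn p ≤ r ↔ ∀ α, ‖p.coeff α‖₊ ≤ r := by
  unfold gn
  rw [Finset.sup_le_iff]
  refine ⟨fun h α => ?_, fun h α _ => h α⟩
  by_cases hα : α ∈ p.support
  · exact h α hα
  · rw [notMem_support_iff.1 hα]
    simp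

lemma Tate_coeff_le_gn (p : MvPolynomial σ K) (α : σ →₀ ℕ) : ‖p.coeff α‖₊ ≤ gn p :=
  (Tate_gn_le_iff p _).1 le_rfl α

lemma Tate_gn_zero : gn (0 : MvPolynomial σ K) = 0 := by simp [gn]

lemma Tate_gn_eq_zero {p : MvPolynomial σ K} (h : gn p = 0) : p = 0 := by
  ext α
  have := Tate_coeff_le_gn p α
  rw [h] at this
  simpa using this

lemma Tate_gn_neg (p : MvPolynomial σ K) : gn (-p) = gn p := by
  simp [gn]

lemma Tate_gn_smul_le (c : K) (p : MvPolynomial σ K) : gn (c • p) ≤ ‖c‖₊ * gn p := by
  rw [Tate_gn_le_iff]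
  intro α
  rw [coeff_smul, smul_eq_mul, nnnorm_mul]
  exact mul_le_mul_right (Tate_coeff_le_gn p α) _

variable [IsUltrametricDist K]

lemma Tate_gn_add_le (p q : MvPolynomial σ K) : gn (p + q) ≤ max (gn p) (gn q) := by
  rw [Tate_gn_le_iff]
  intro α
  rw [coeff_add]
  exact (IsUltrametricDist.nnnorm_add_le_max _ _).trans
    (max_le_max (Tate_coeff_le_gn p α) (Tate_coeff_le_gn q α))

lemma Tate_gn_mul_le (p q : MvPolynomial σ K) : gn (p * q) ≤ gn p * gn q := by
  classical
  rw [Tate_gn_le_iff]
  intro α
  rw [coeff_mul]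
  refine IsUltrametricDist.nnnorm_sum_le_of_forall_le fun x _ => ?_
  rw [nnnorm_mul]
  exact mul_le_mul' (Tate_coeff_le_gn p _) (Tate_coeff_le_gn q _)

end

/-- the polynomial ring, to carry the Gauss norm. -/
def TateP (K : Type) [NormedField K] (d : ℕ) : Type := MvPolynomial (Fin d) K

section

variable (K : Type) [NormedField K] (d : ℕ)

noncomputable instance : CommRing (TateP K d) :=
  inferInstanceAs (CommRing (MvPolynomial (Fin d) K))

noncomputable instance : Algebra K (TateP K d) :=
  inferInstanceAs (Algebra K (MvPolynomial (Fin d) K))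

/-- the identity map. -/
noncomputable def TateE : MvPolynomial (Fin d) K ≃ₐ[K] TateP K d := AlgEquiv.refl

variable [IsUltrametricDist K]

/-- the Gauss norm as a ring norm. -/
noncomputable def TateN : RingNorm (TateP K d) where
  toFun p := gn ((TateE K d).symm p)
  map_zero' := by rw [map_zero, Tate_gn_zero]; rfl
  add_le' p q := by
    rw [map_add]
    exact_mod_cast (Tate_gn_add_le _ _).trans (max_le le_self_add le_add_self)
  neg' p := by rw [map_neg, Tate_gn_neg]
  mul_le' p q := by
    rw [map_mul]
    exact_mod_cast Tate_gn_mul_le _ _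
  eq_zero_of_map_eq_zero' p h := by
    have : (TateE K d).symm p = 0 := Tate_gn_eq_zero (by exact_mod_cast h)
    simpa using this

noncomputable instance : NormedCommRing (TateP K d) :=
  { (TateN K d).toNormedRing with mul_comm := mul_comm }

lemma Tate_norm (p : TateP K d) : ‖p‖ = gn ((TateE K d).symm p) := rfl

noncomputable instance : NormedAlgebra K (TateP K d) where
  norm_smul_le c p := by
    rw [Tate_norm, Tate_norm, map_smul]
    exact_mod_cast Tate_gn_smul_le c _

lemma Tate_add (p q : TateP K d) : ‖p + q‖ ≤ max ‖p‖ ‖q‖ := by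
  rw [Tate_norm, Tate_norm, Tate_norm, map_add]
  exact_mod_cast Tate_gn_add_le _ _

end

theorem sTate : STate := by
  intro K _ _ d
  have hu : IsUltrametricDist (Completion (TateP K d)) := by
    apply IsUltrametricDist.isUltrametricDist_of_forall_norm_add_le_max_norm
    intro x y
    refine Completion.induction_on₂ x y (isClosed_le (by fun_prop) (by fun_prop)) fun p q => ?_
    rw [← Completion.coe_add, Completion.norm_coe, Completion.norm_coe, Completion.norm_coe]
    exact Tate_add K d p q
  let φ : MvPolynomial (Fin d) K →ₐ[K] Completion (TateP K d) :=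
    (IsScalarTower.toAlgHom K (TateP K d) (Completion (TateP K d))).comp (TateE K d).toAlgHom
  have hφ : ∀ p, φ p = ((TateE K d p : TateP K d) : Completion (TateP K d)) := fun p => rfl
  have he : ∀ p, aeval (fun i => φ (X i)) p = φ p := fun p =>
    (DFunLike.congr_fun (aeval_unique φ) p).symm
  refine ⟨Completion (TateP K d), inferInstance, inferInstance, inferInstance, hu,
    fun i => φ (X i), fun p => ?_, ?_⟩
  · apply NNReal.eq
    rw [he, hφ, coe_nnnorm, Completion.norm_coe, Tate_norm, AlgEquiv.symm_apply_apply]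
  · rw [funext he]
    exact Completion.denseRange_coe.comp (TateE K d).surjective.denseRange
      (Completion.continuous_coe _)

end Pool.Agent.MP_c1891a_nt.G43
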